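import Pool.Agent.Helper6.CX.Goals

/-!
# Packet CX-SPL (MP_75608d_al): normal form of a permutation with few cycles
-/

namespace Pool.Agent.Helper23.CX.SPL

open Equiv Pool.Agent.Helper6.CX

theorem sum_card_of_unique {n : ℕ} {κ : Type} [Fintype κ] [DecidableEq κ]
    (A : κ → Finset (Fin n)) (h : ∀ r, ∃! i, r ∈ A i) : ∑ i, (A i).card = n := by
  classical
  have h1 : ∀ i, (A i).card = ∑ r : Fin n, if r ∈ A i then 1 else 0 := fun i => by
    simp
  calc ∑ i, (A i).card = ∑ i, ∑ r : Fin n, (if r ∈ A i then 1 else 0) := by simp only [h1]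
    _ = ∑ r : Fin n, ∑ i, (if r ∈ A i then 1 else 0) := Finset.sum_comm
    _ = ∑ _r : Fin n, 1 := by
        refine Finset.sum_congr rfl fun r _ => ?_
        obtain ⟨i, hi, hu⟩ := h r
        rw [Finset.sum_eq_single i]
        · simp only [hi, if_true]
        · intro j _ hj
          rw [if_neg fun hr => hj (hu j hr)]
        · intro hh
          exact absurd (Finset.mem_univ i) hh
    _ = n := by simp

theorem thm (hconj : S_CONJ) (hrotg : S_ROTG) (hgad : S_GAD) : S_SPL := by
  classical
  intro n G x hn hG hcyc
  have hnz : NeZero n := ⟨by omega⟩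
  -- the classes
  set Qt := Quotient (Perm.SameCycle.setoid x) with hQt
  have hfin : Fintype Qt := Fintype.ofFinite _
  have hne : Nonempty Qt := ⟨⟦(0 : Fin n)⟧⟩
  have hcard : Nat.card Qt = Fintype.card Qt := Nat.card_eq_fintype_card
  have hpos : 0 < Fintype.card Qt := Fintype.card_pos
  have hcx : cyc x = Fintype.card Qt := hcard
  set b := cyc x - 1 with hb
  have hb1 : cyc x = b + 1 := by omega
  have hcardO : Fintype.card Qt = Fintype.card (Option (Fin b)) := by
    rw [Fintype.card_option, Fintype.card_fin]; omega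
  have e0 : Qt ≃ Option (Fin b) := Fintype.equivOfCardEq hcardO
  set mc : Qt → ℕ := fun c => (Finset.univ.filter fun r : Fin n => (⟦r⟧ : Qt) = c).card with hmc
  obtain ⟨cs, hcs⟩ := Finite.exists_max mc
  set e : Qt ≃ Option (Fin b) := e0.trans (swap (e0 cs) none) with he
  have hecs : e cs = none := by simp [he]
  set E : Option (Fin b) → Finset (Fin n) := fun o =>
    Finset.univ.filter fun r : Fin n => e (⟦r⟧ : Qt) = o with hE
  have memE : ∀ r o, r ∈ E o ↔ e (⟦r⟧ : Qt) = o := fun r o => by simp [hE]
  have Ecard : ∀ o, (E o).card = mc (e.symm o) := by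
    intro o
    simp only [hE, hmc]
    congr 1
    ext r
    simp only [Finset.mem_filter, Finset.mem_univ, true_and]
    exact ⟨fun h => by rw [← h, Equiv.symm_apply_apply], fun h => by rw [h, Equiv.apply_symm_apply]⟩
  have Emax : ∀ o, (E o).card ≤ (E none).card := by
    intro o
    rw [Ecard, Ecard, ← hecs, Equiv.symm_apply_apply]
    exact hcs _
  have Epos : ∀ o, 1 ≤ (E o).card := by
    intro o
    obtain ⟨r, hr⟩ := Quotient.exists_rep (e.symm o)
    refine Finset.card_pos.2 ⟨r, ?_⟩
    rw [memE, hr, Equiv.apply_symm_apply]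
  have Euniq : ∀ r, ∃! o, r ∈ E o := fun r =>
    ⟨e ⟦r⟧, (memE _ _).2 rfl, fun o ho => ((memE _ _).1 ho).symm⟩
  have Esum : ∑ o, (E o).card = n := sum_card_of_unique E Euniq
  have step : ∀ r : Fin n, (⟦x r⟧ : Qt) = ⟦r⟧ := fun r =>
    Quotient.sound (s := Perm.SameCycle.setoid x)
      (Perm.sameCycle_apply_left.2 (Perm.SameCycle.refl x r) : x.SameCycle (x r) r)
  have Ecyc : ∀ o, x.IsCycleOn (E o) := by
    intro o
    refine ⟨⟨fun r hr => ?_, x.injective.injOn, fun r hr => ?_⟩, fun r hr s hs => ?_⟩
    · rw [Finset.mem_coe, memE] at hr ⊢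
      rw [step, hr]
    · rw [Finset.mem_coe, memE] at hr
      refine ⟨x⁻¹ r, ?_, by simp⟩
      rw [Finset.mem_coe, memE, ← hr]
      have := step (x⁻¹ r)
      rw [show x (x⁻¹ r) = r by simp] at this
      rw [this]
    · rw [Finset.mem_coe, memE] at hr hs
      have : (⟦r⟧ : Qt) = ⟦s⟧ := e.injective (hr.trans hs.symm)
      exact Quotient.exact this
  -- the numbers
  set L : ℕ → ℕ := fun k => if h : k < b then (E (some ⟨k, h⟩)).card else 0 with hL
  set S : ℕ → ℕ := fun i => ∑ k ∈ Finset.range i, L k with hS
  have Ssucc : ∀ i, S (i + 1) = S i + L i := fun i => Finset.sum_range_succ _ _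
  have Smono : Monotone S := monotone_nat_of_le_succ fun i => by rw [Ssucc]; omega
  have Lval : ∀ i : Fin b, L i = (E (some i)).card := fun i => by
    simp only [hL, i.isLt, dif_pos]
  have SB : S b + (E none).card = n := by
    refine Eq.trans ?_ Esum
    rw [Fintype.sum_option, add_comm]
    congr 1
    simp only [hS]
    rw [← Fin.sum_univ_eq_sum_range]
    exact Finset.sum_congr rfl fun i _ => Lval i
  have hbig : (b + 1) * G < (E none).card := by
    have h1 : n ≤ (b + 1) * (E none).card := by
      calc n = ∑ o, (E o).card := Esum.symm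
        _ ≤ ∑ _o : Option (Fin b), (E none).card := Finset.sum_le_sum fun o _ => Emax o
        _ = (b + 1) * (E none).card := by
            rw [Finset.sum_const, Finset.card_univ, Fintype.card_option, Fintype.card_fin,
              smul_eq_mul]
    rw [hb1] at hcyc
    have h2 : (b + 1) * ((b + 1) * G) < (b + 1) * (E none).card := by
      calc (b + 1) * ((b + 1) * G) = (b + 1) * (b + 1) * G := by ring
        _ < n := hcyc
        _ ≤ _ := h1
    exact Nat.lt_of_mul_lt_mul_left h2
  have bound : ∀ i < b, (i + 1) * G + S (i + 1) + G < n := by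
    intro i hi
    have h1 : (i + 1) * G + G ≤ (b + 1) * G := by
      calc (i + 1) * G + G = (i + 2) * G := by ring
        _ ≤ (b + 1) * G := Nat.mul_le_mul_right _ (by omega)
    have h2 : S (i + 1) ≤ S b := Smono hi
    omega
  set p : Fin b → Fin n := fun i => ⟨(i.val + 1) * G + S i.val, by
    have := bound i.val i.isLt
    have := Ssucc i.val
    omega⟩ with hp
  set q : Fin b → Fin n := fun i => ⟨(i.val + 1) * G + S (i.val + 1), by
    have := bound i.val i.isLt
    omega⟩ with hq
  have pv : ∀ i, (p i).val = (i.val + 1) * G + S i.val := fun _ => rfl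
  have qv : ∀ i, (q i).val = (i.val + 1) * G + S (i.val + 1) := fun _ => rfl
  have hLp : ∀ i : Fin b, 1 ≤ L i.val := fun i => by rw [Lval]; exact Epos _
  have hspread : Spread G p q := by
    refine ⟨fun i => ⟨?_, ?_, ?_⟩, fun i j hij => ?_⟩
    · rw [pv]
      have : G ≤ (i.val + 1) * G := Nat.le_mul_of_pos_left _ (by omega)
      omega
    · rw [pv, qv, Ssucc]
      have := hLp i
      omega
    · rw [qv]; exact bound i.val i.isLt
    · rw [qv, pv]
      have h1 : (i.val + 1) * G + G ≤ (j.val + 1) * G := by
        have hij' : i.val < j.val := hij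
        calc (i.val + 1) * G + G = (i.val + 2) * G := by ring
          _ ≤ (j.val + 1) * G := Nat.mul_le_mul_right _ (by omega)
      have h2 : S (i.val + 1) ≤ S j.val := Smono hij
      omega
  refine ⟨p, q, hspread, ?_⟩
  obtain ⟨hr1, hr2⟩ := hrotg n b G p q hG hn hspread
  set B : Option (Fin b) → Finset (Fin n) := fun o =>
    match o with
    | none => Finset.univ.filter fun r => ∀ i, ¬ ((p i).val < r.val ∧ r.val ≤ (q i).val)
    | some i => Finset.Ioc (p i) (q i) with hB
  have memBs : ∀ r i, r ∈ B (some i) ↔ (p i).val < r.val ∧ r.val ≤ (q i).val := fun r i => by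
    simp only [hB, Finset.mem_Ioc]
    rfl
  have memBn : ∀ r, r ∈ B none ↔ ∀ i, ¬ ((p i).val < r.val ∧ r.val ≤ (q i).val) := fun r => by
    simp [hB]
  have Buniq : ∀ r, ∃! o, r ∈ B o := by
    intro r
    by_cases h : ∃ i, (p i).val < r.val ∧ r.val ≤ (q i).val
    · obtain ⟨i, hi⟩ := h
      refine ⟨some i, (memBs r i).2 hi, fun o ho => ?_⟩
      cases o with
      | none => exact absurd hi ((memBn r).1 ho i)
      | some j =>
        have hj := (memBs r j).1 ho
        rcases lt_trichotomy i j with hij | hij | hij
        · have := hspread.2 i j hij; omega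
        · rw [hij]
        · have := hspread.2 j i hij; omega
    · push Not at h
      refine ⟨none, (memBn r).2 fun i hi => absurd hi.2 (by have := h i hi.1; omega), fun o ho => ?_⟩
      cases o with
      | none => rfl
      | some j =>
        have hj := (memBs r j).1 ho
        have := h j hj.1
        omega
  have Bsum : ∑ o, (B o).card = n := sum_card_of_unique B Buniq
  have Bs : ∀ i, (B (some i)).card = (E (some i)).card := by
    intro i
    simp only [hB]
    rw [Fin.card_Ioc, qv, pv, Ssucc, ← Lval]
    omega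
  have Bn : (B none).card = (E none).card := by
    have h1 : (B none).card + ∑ i, (B (some i)).card = (E none).card + ∑ i, (E (some i)).card := by
      rw [← Fintype.sum_option (fun o => (B o).card), ← Fintype.sum_option (fun o => (E o).card),
        Bsum, Esum]
    have h2 : ∑ i, (B (some i)).card = ∑ i, (E (some i)).card :=
      Finset.sum_congr rfl fun i _ => Bs i
    omega
  refine hconj n (Option (Fin b)) x (finRotate n * gad p q) E B Euniq Buniq Ecyc ?_ ?_
  · intro o
    cases o with
    | none =>
      have : (B none : Set (Fin n)) = {r : Fin n | ∀ i, ¬ ((p i).val < r.val ∧ r.val ≤ (q i).val)} := by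
        ext r; rw [Finset.mem_coe, memBn]; rfl
      rw [this]; exact hr2
    | some i =>
      have : (B (some i) : Set (Fin n)) = {r : Fin n | (p i).val < r.val ∧ r.val ≤ (q i).val} := by
        ext r; rw [Finset.mem_coe, memBs]; rfl
      rw [this]; exact hr1 i
  · intro o
    cases o with
    | none => exact Bn.symm
    | some i => exact (Bs i).symm

end Pool.Agent.Helper23.CX.SPL
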