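import Pool.Agent.Helper6.CX.Goals

/-!
# Packet CX-WIN (MP_75608d_al): windows contain deep points
-/

namespace Pool.Agent.Helper23.CX

open Equiv Pool.Agent.Helper6.CX

theorem rot_one {n : ℕ} (p : Fin n) : (finRotate n p).val = (p.val + 1) % n := by
  have := p.neZero
  rw [finRotate_apply, Fin.val_add, Fin.val_one']
  simp [Nat.add_mod]

theorem rot_mod {n : ℕ} (p : Fin n) (i : ℕ) : (((finRotate n) ^ i) p).val = (p.val + i) % n := by
  induction i with
  | zero => simp [Nat.mod_eq_of_lt p.isLt]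
  | succ i ih =>
    rw [pow_succ', Perm.mul_apply, rot_one, ih]
    simp [add_assoc]

/-- a linear window inside the cyclic one -/
theorem linear_window {n M : ℕ} (hM : 2 * M ≤ n) (p : Fin n) : ∃ i0 v : ℕ, i0 + M ≤ 2 * M ∧
    v + M ≤ n ∧ ∀ s < M, (((finRotate n) ^ (i0 + s)) p).val = v + s := by
  by_cases h : p.val + M ≤ n
  · refine ⟨0, p.val, by omega, h, fun s hs => ?_⟩
    rw [zero_add, rot_mod, Nat.mod_eq_of_lt (by omega)]
  · refine ⟨n - p.val, 0, by omega, by omega, fun s hs => ?_⟩
    have hp := p.isLt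
    rw [rot_mod, show p.val + (n - p.val + s) = s + n by omega, Nat.add_mod_right,
      Nat.mod_eq_of_lt (by omega), zero_add]

theorem thm : Pool.Agent.Helper6.CX.S_WIN := by
  intro n m N₀ E G R₀ c B hm hE hSel hSp hG hn p
  obtain ⟨-, -, -, T, hT, hsel⟩ := hSel
  set D := 2 * m + 1 with hD
  set W := (E + 5) * (R₀ + 3) + E + 10 with hW
  have hwin : winLen m E R₀ = 2 * (D * W) := by unfold winLen; rw [hD, hW]; ring
  have hDpos : 0 < D := by omega
  obtain ⟨i0, v, hi0, hv, hval⟩ := linear_window (M := D * W) (by rw [← hwin]; exact hn) p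
  -- the first full interval
  set k1 := (v + D - 1) / D with hk1
  have hk1a : v ≤ D * k1 := by
    have := Nat.div_add_mod (v + D - 1) D
    have h2 := Nat.mod_lt (v + D - 1) hDpos
    rw [← hk1] at this
    omega
  have hk1b : D * k1 ≤ v + D - 1 := by
    rw [hk1]; exact Nat.mul_div_le _ _
  -- the bad intervals
  classical
  set K := Finset.Ico k1 (k1 + (W - 1)) with hK
  set Bad := K.filter fun k => ¬ ∃ i < N₀, c i = k with hBad
  set BB := K.filter fun k => ∃ q ∈ B, q.val / D = k with hBB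
  have hWpos : 1 ≤ W := by rw [hW]; omega
  have hKn : ∀ k ∈ K, D * k1 ≤ D * k ∧ D * (k + 1) ≤ v + D * W - 1 := by
    intro k hk
    rw [hK, Finset.mem_Ico] at hk
    refine ⟨Nat.mul_le_mul_left _ hk.1, ?_⟩
    have h1 : D * (k + 1) ≤ D * (k1 + (W - 1)) := Nat.mul_le_mul_left _ (by omega)
    have h2 : D * (k1 + (W - 1)) = D * k1 + (D * W - D) := by
      rw [Nat.mul_add, Nat.mul_sub, mul_one]
    have h3 : D ≤ D * W := Nat.le_mul_of_pos_right _ hWpos
    omega
  have hBBcard : BB.card ≤ 4 := by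
    refine le_trans ?_ (hSp p)
    -- choose the points
    have hch : ∀ k ∈ BB, ∃ i, i < G ∧ ((finRotate n) ^ i) p ∈ B ∧
        (((finRotate n) ^ i) p).val / D = k := by
      intro k hk
      rw [hBB, Finset.mem_filter] at hk
      obtain ⟨hkK, q, hqB, hqk⟩ := hk
      obtain ⟨hk2, hk3⟩ := hKn k hkK
      have hq1 : D * k ≤ q.val := by rw [← hqk]; exact Nat.mul_div_le _ _
      have hq2 : q.val < D * (k + 1) := by
        rw [← hqk, Nat.mul_add, mul_one]
        exact Nat.lt_mul_div_succ _ hDpos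
      have hs : q.val - v < D * W := by omega
      have hval' := hval (q.val - v) hs
      have heq : ((finRotate n) ^ (i0 + (q.val - v))) p = q := by
        apply Fin.ext; rw [hval']; omega
      refine ⟨i0 + (q.val - v), by omega, by rw [heq]; exact hqB, by rw [heq]; exact hqk⟩
    choose! f hf1 hf2 hf3 using hch
    refine Finset.card_le_card_of_injOn f (fun k hk => ?_) ?_
    · rw [Finset.mem_coe, Finset.mem_filter, Finset.mem_range]
      exact ⟨hf1 k hk, hf2 k hk⟩
    · intro k hk k' hk' h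
      rw [← hf3 k hk, ← hf3 k' hk', h]
  have hBadcard : Bad.card ≤ E + 3 := by
    have hsub : Bad ⊆ BB ∪ T := by
      intro k hk
      rw [hBad, Finset.mem_filter] at hk
      obtain ⟨hkK, hnot⟩ := hk
      have h1 := (hKn k hkK).2
      have h2 : D * (k + 1) ≤ n := by omega
      rcases hsel k h2 with h | h | h
      · exact absurd h hnot
      · rw [Finset.mem_union, hBB, Finset.mem_filter]
        exact Or.inl ⟨hkK, h⟩
      · exact Finset.mem_union_right _ h
    have := (Finset.card_le_card hsub).trans (Finset.card_union_le _ _)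
    omega
  -- a block without bad intervals
  have hblock : ∃ r < E + 4, ∀ s < R₀ + 2, ∃ i < N₀, c i = k1 + r * (R₀ + 2) + s := by
    by_contra hcon
    push Not at hcon
    choose! g hg1 hg2 using hcon
    have hmem : ∀ r < E + 4, k1 + r * (R₀ + 2) + g r ∈ Bad := by
      intro r hr
      rw [hBad, Finset.mem_filter, hK, Finset.mem_Ico]
      have h1 := hg1 r hr
      have h2 : r * (R₀ + 2) ≤ (E + 3) * (R₀ + 2) := Nat.mul_le_mul_right _ (by omega)
      have h3 : (E + 3) * (R₀ + 2) + (R₀ + 2) = (E + 4) * (R₀ + 2) := by ring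
      have h4 : (E + 4) * (R₀ + 2) ≤ (E + 5) * (R₀ + 3) :=
        Nat.mul_le_mul (by omega) (by omega)
      refine ⟨⟨by omega, by omega⟩, ?_⟩
      rintro ⟨i, hi, hci⟩
      exact hg2 r hr i hi hci
    have hcard : (Finset.range (E + 4)).card ≤ Bad.card := by
      refine Finset.card_le_card_of_injOn (fun r => k1 + r * (R₀ + 2) + g r) (fun r hr => ?_) ?_
      · exact hmem r (Finset.mem_range.1 hr)
      · intro r hr r' hr' h
        have h1 := hg1 r (Finset.mem_range.1 hr)
        have h2 := hg1 r' (Finset.mem_range.1 hr')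
        simp only at h
        have h3 : (g r + (R₀ + 2) * r) / (R₀ + 2) = (g r' + (R₀ + 2) * r') / (R₀ + 2) := by
          congr 1
          have : r * (R₀ + 2) + g r = r' * (R₀ + 2) + g r' := by omega
          linarith [mul_comm r (R₀ + 2), mul_comm r' (R₀ + 2)]
        rw [Nat.add_mul_div_left _ _ (by omega), Nat.add_mul_div_left _ _ (by omega),
          Nat.div_eq_of_lt h1, Nat.div_eq_of_lt h2] at h3
        omega
    rw [Finset.card_range] at hcard
    omega
  obtain ⟨r, hr, hrun⟩ := hblock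
  -- the last point of the run
  set kb := k1 + r * (R₀ + 2) with hkb
  have hr2 : r * (R₀ + 2) + (R₀ + 2) ≤ W - 1 := by
    have h2 : r * (R₀ + 2) ≤ (E + 3) * (R₀ + 2) := Nat.mul_le_mul_right _ (by omega)
    have h3 : (E + 3) * (R₀ + 2) + (R₀ + 2) = (E + 4) * (R₀ + 2) := by ring
    have h4 : (E + 4) * (R₀ + 2) ≤ (E + 5) * (R₀ + 3) := Nat.mul_le_mul (by omega) (by omega)
    omega
  have hend : D * (kb + (R₀ + 2)) ≤ v + D * W - 1 := by
    have h1 : kb + (R₀ + 1) ∈ K := by
      rw [hK, Finset.mem_Ico]; omega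
    have := (hKn _ h1).2
    rw [show kb + (R₀ + 1) + 1 = kb + (R₀ + 2) by ring] at this
    exact this
  have hlo : D * k1 ≤ D * kb := Nat.mul_le_mul_left _ (by omega)
  have hexp : D * (kb + (R₀ + 2)) = D * kb + D * (R₀ + 2) := Nat.mul_add _ _ _
  have hDR : R₀ + 2 ≤ D * (R₀ + 2) := Nat.le_mul_of_pos_left _ hDpos
  set qs := D * (kb + (R₀ + 2)) - 1 with hqs
  have hs : qs - v < D * W := by omega
  refine ⟨i0 + (qs - v), by rw [hwin]; omega, ?_⟩
  rw [hval _ hs, show v + (qs - v) = qs by omega]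
  refine ⟨by omega, fun q hq1 hq2 => ?_⟩
  have hq3 : D * kb ≤ q := by omega
  have hq4 : q < D * (kb + (R₀ + 2)) := by omega
  have hd1 : kb ≤ q / D := by
    rw [Nat.le_div_iff_mul_le hDpos, mul_comm]; exact hq3
  have hd2 : q / D < kb + (R₀ + 2) := by
    rw [Nat.div_lt_iff_lt_mul hDpos, mul_comm]; exact hq4
  obtain ⟨i, hi, hci⟩ := hrun (q / D - kb) (by omega)
  refine ⟨i, hi, ?_⟩
  show c i = q / D
  rw [hci]
  omega

end Pool.Agent.Helper23.CX
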